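import Pool.Agent.Helper51.Girth4.LLL
import Pool.Agent.Helper38.Sey.ASM

/-!
# Project SEY2 (MP_b6b2d3_co): Seymour's conjecture for graphs covered by few cliques, and for
graphs with small independence number

`H` is the complement of `G`, `n = |V|`, `s = r + 1`. The condition `δ(G) ≥ r n / (r + 1)` says
`s (deg_H v + 1) ≤ n` for all `v`. One needs a cyclic order of `V` in which the ends of every edge of `H` are
at cyclic distance larger than `A r`.

THEOREM 1 (`GoalCOVER`). For every `A` there is `K` such that this is possible if `s ≥ K` and `H` has a proper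
colouring with `m` colours, `K m s ≤ n` (i.e. `G` is covered by `m` cliques; `A = 1`: the exact `r`-th power).

THEOREM 2 (`GoalALPHA`). For every `A` there is `K` such that this is possible if `r ≥ K`, `α(G) ≤ k` and
`n ≥ (K k)^K r`.

PLAN for 1. Cut the colour classes into independent blocks of size between `b` and `4 b`, where `b = c s`
with a large constant `c` (`GoalPIECES`, `GoalHOST`: the small rests of the colour classes are
cut into groups `Z` of size at most `s / 4`, so that `|N(Z)| ≤ n / 4`; every group gets its own block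
`X`, and is added to `b` vertices of `X` without neighbours in `Z`). Order the blocks cyclically such that there
are few edges between consecutive blocks (`GoalCYC`, `GoalLIGHT`). For consecutive blocks `X`, `Y` find
`R ⊆ X`, `L ⊆ Y` with `|R| = |L| = A s` and no edges between (`GoalLINK`, `GoalLINK2`). Put `L` at
the beginning of `Y` and `R` at the end of `X` (`Pool.Agent.Helper38.Sey.goalASM`).

PLAN for 2. (Johansson, Molloy, Bernshteyn, Bonamy-Kelly-Nelson-Postle.) `H` has no clique with `k + 1`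
vertices, all degrees are at most `Δ = n / s`. `GoalJOH`: then `H` has a proper colouring with `q ≤ Δ / K` colours if
`Δ ≥ (K2 k)^K2`. Take a uniformly random proper partial colouring `φ` with `q` colours. By the
lopsided local lemma (`GoalLLLC`) there is a `φ` such that for every vertex `v` (i) at least `ℓ` colours are missing in the
neighbourhood of `v`, (ii) each missing colour is missing for at most `ℓ / 16` uncoloured
neighbours of `v`. Such a `φ` can be completed (`GoalLIST`). For (i), (ii) one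
resamples one colour `c` in `S = N(v)` after the other (`GoalCHAIN`): the vertices of `S` which may get the colour
`c` form a set `Fr`, and the class of `c` is a random independent subset of `Fr`
(`GoalFIB`); if `Fr` has more than `M` independent subsets then most of them are large (`GoalSUP`), which
can happen for few colours only, since `|S| ≤ 2 K q`; otherwise the class is empty with probability at least `1 / M`.
-/

namespace Pool.Agent.Helper63.Sey2

open Pool.Agent.Helper41.Girth4 (Pr)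

/-! ### Part 1 -/

/-- PACKET LINK (greedy choice of `R`).

PROOF. Let `x = |P|`. Induction on `j ≤ t`: there are `R ⊆ P` with `|R| = j` and `L ⊆ Q` without edges between `R`
and `L`, `|L| ≥ (1 - 2 d / x)^j |Q|`. `j = 0`: `R = ∅`, `L = Q`. Step: `|P \ R| ≥ x - j ≥ x / 2` (and it is
nonempty, as `j < t`, `2 t ≤ x`). The number of pairs (u, w), `u ∈ P \ R`, `w ∈ L`, adjacent, is at most
`d |L|`, so there is `u ∈ P \ R` with at most `d |L| / (x / 2) = (2 d / x) |L|` neighbours in `L`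
(`Finset.exists_le_of_sum_le` or so). Add `u` to `R` and remove its neighbours from `L`. Here
`1 - 2 d / x ≥ 0` by `2 d ≤ x`. (If `x = 0` then `t = 0`.) -/
def GoalLINK : Prop :=
  ∀ (V : Type) [Fintype V] (H : SimpleGraph V) (P Q : Finset V) (t d : ℕ),
    2 * t ≤ P.card → 2 * d ≤ P.card →
    (∀ w ∈ Q, Nat.card {u // u ∈ P ∧ H.Adj w u} ≤ d) →
    ∃ R L : Finset V, R ⊆ P ∧ L ⊆ Q ∧ R.card = t ∧ (∀ u ∈ R, ∀ w ∈ L, ¬ H.Adj u w) ∧
      (1 - 2 * (d : ℝ) / P.card) ^ t * Q.card ≤ L.card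

/-- PACKET CYC (a cyclic order without consecutive bad pairs).

PROOF. Take a permutation `π` of `ZMod N` with the minimal number of bad `g`, i.e. with
`B (π g) (π (g + 1))`. Suppose that `i` is bad; let `a = π i`, `b = π (i + 1)`, `c = π (i + 2)`. `B` is
nonempty, so `8 ≤ N`. The following `j` are excluded: `j ∈ {i, i + 1, i + 2}` (3); `B a (π j)` (at
most `N / 8`); `B c (π j)` (at most `N / 8`); `B b (π (j - 1))` (at most `N / 8`); `B b (π (j + 1))` (at most `N / 8`).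
Since `3 + N / 2 < N` there is a `j` which is not excluded. Let `π' = π * swap (i + 1) j` (so `π' (i + 1) = π j`,
`π' j = b`). Only the positions `i`, `i + 1`, `j - 1`, `j` of pairs change. `j - 1 ≠ i + 1`, `j + 1 ≠ i + 1`, `i ≠ j`, `i + 2 ≠ j`, so:
at `i`: the pair (a, π j), not bad; at `i + 1`: (π j, c), not bad; at `j - 1`: (π (j-1), b), not bad; at `j`:
(b, π (j + 1)), not bad. So `π'` has fewer bad positions, as `i` was bad: contradiction.
(`g`, `g + 1` are different since `N ≥ 8`; for other `g` the pair of `π'` is that of `π`.) -/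
def GoalCYC : Prop :=
  ∀ (N : ℕ) [NeZero N] (B : ZMod N → ZMod N → Prop), (∀ x y, B x y → B y x) →
    (∀ x, 8 * Nat.card {y // B x y} ≤ N) →
    ∃ π : Equiv.Perm (ZMod N), ∀ g, ¬ B (π g) (π (g + 1))

/-- PACKET PIECES (cutting colour classes).

PROOF. Let `cs i = |{v : f v = i}|` and let `p : V → ℕ` with `p v < cs (f v)` be injective on each class (e.g.
`p v` = the number of `u` with `f u = f v` and `e u < e v`, for an enumeration `e`); so `p` maps the class `i` bijectively onto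
`{0, ..., cs i - 1}`. Let `ι = (Σ i : Fin m, Fin (cs i / B)) ⊕ (Fin m × Fin (B / h + 1))`, `big` = is in the
left summand. `g v = inl (f v, p v / B)` if `p v / B < cs (f v) / B`, and
`g v = inr (f v, (p v % B) / h)` otherwise. The fibre of `inl (i, a)` consists of the `v` in the class `i` with
`p v ∈ [a B, (a + 1) B)`; all these numbers are `< cs i`, so it has `B` elements. For the fibre of `inr (i, j)`: `p v / B = cs i / B =: Q`, and
`p v ∈ [Q B + j h, Q B + (j + 1) h)`, at most `h` elements. -/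
def GoalPIECES : Prop :=
  ∀ (V : Type) [Fintype V] (m B h : ℕ) (f : V → Fin m), 1 ≤ B → 1 ≤ h →
    ∃ (ι : Type) (_ : Fintype ι) (g : V → ι) (big : ι → Prop),
      (∀ u v, g u = g v → f u = f v) ∧
      (∀ i, big i → Nat.card {v // g v = i} = B) ∧
      (∀ i, ¬ big i → Nat.card {v // g v = i} ≤ h) ∧
      Nat.card {i // ¬ big i} ≤ m * (B / h + 1)

/-- PACKET HOST (every small group is added to a part of its own big block).

PROOF. Let `n = |V|`, `X_j` the fibre of the big `j`, `Z_i` the fibre of `i` if `i` is not big, `z` = the number of the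
`i` which are not big, `24 b z ≤ n`. Let `N(Z_i)` be the set of the `u` with a neighbour in `Z_i`:
`s |N(Z_i)| ≤ |Z_i| n ≤ h n`, and `4 h ≤ s`, so `4 |N(Z_i)| ≤ n` (if `h = 0` then `Z_i` is empty).
The number of big `j` is `N1` with `4 b N1 ≥ n - z h ≥ n - z b ≥ (23 / 24) n`. Call a big `j` allowed for
`i` if `|X_j ∩ N(Z_i)| ≤ 3 b`. The number `x` of big `j` which are not allowed has `3 b x ≤ |N(Z_i)| ≤ n / 4`. So
the number of allowed `j` is at least `23 n / (96 b) - n / (12 b) = 15 n / (96 b) ≥ n / (24 b) ≥ z`. By Hall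
(`Finset.all_card_le_biUnion_card_iff_exists_injective`; the condition is trivial since every `i` has at least `z`
allowed `j`) there is an injective `ho` from the non-big labels to the big labels with `ho i` allowed for `i`. Choose
`Y_i ⊆ X_(ho i) \ N(Z_i)` with `|Y_i| = b` (possible: `4 b - 3 b = b`). Let `C v = i` if
`v ∈ Y_i` (`i` is unique), `C v = g v` otherwise. The fibres of `C`: `Z_i ∪ Y_i`, independent, with between `b` and
`b + h ≤ 2 b` elements; for `j` big: `X_j` or `X_j \ Y_i` (`j = ho i`), independent, `4 b` or `3 b` elements. Finally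
compose `C : V → ι` with `Fintype.equivFin ι`. -/
def GoalHOST : Prop :=
  ∀ (V ι : Type) [Fintype V] [Fintype ι] (H : SimpleGraph V) (g : V → ι) (big : ι → Prop)
    (s b h : ℕ),
    (∀ u v, H.Adj u v → g u ≠ g v) →
    (∀ v, s * Nat.card {u // H.Adj v u} ≤ Fintype.card V) →
    1 ≤ b → h ≤ b → 4 * h ≤ s →
    (∀ i, big i → Nat.card {v // g v = i} = 4 * b) →
    (∀ i, ¬ big i → Nat.card {v // g v = i} ≤ h) →
    24 * b * Nat.card {i // ¬ big i} ≤ Fintype.card V →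
    ∃ (N : ℕ) (C : V → Fin N), (∀ u v, H.Adj u v → C u ≠ C v) ∧
      ∀ x, b ≤ Nat.card {v // C v = x} ∧ Nat.card {v // C v = x} ≤ 4 * b

/-- PACKET LIGHT (cyclic order of the blocks): prove `GoalCYC → GoalLIGHT`.

PROOF. Let `n = |V|`, `ρ0 : Fin N ≃ ZMod N` any bijection (both have `N` elements). For
blocks `x, y` let `e x y` be the number of pairs (u, v) with `C u = x`, `C v = y`, `H.Adj u v`. `B x y` (on
`ZMod N`, via `ρ0`): `128 b² < s e x y`. It is symmetric. For given `x`: `∑_y s (e x y) = ∑_{u ∈ x} s deg u ≤ 4 b n`, so the number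
`w` of `y` with `B x y` satisfies `w 128 b² ≤ 4 b n`, `32 b w ≤ n` and `n ≤ 4 b N` (the blocks cover `V`), so
`8 w ≤ N`. `GoalCYC` gives `π`; take `ρ = ρ0` followed by the inverse of `π`, so the block number `g` for the new order `C'` is `π g`:
`C' v = π⁻¹ (ρ0 (C v))`. -/
def GoalLIGHT : Prop :=
  ∀ (V : Type) [Fintype V] (H : SimpleGraph V) (s b N : ℕ) (C : V → Fin N), 1 ≤ b → 2 ≤ N →
    (∀ v, s * Nat.card {u // H.Adj v u} ≤ Fintype.card V) →
    (∀ x, Nat.card {v // C v = x} ≤ 4 * b) →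
    ∃ ρ : Fin N ≃ ZMod N, ∀ g : ZMod N,
      s * Nat.card {p : V × V // ρ (C p.1) = g ∧ ρ (C p.2) = g + 1 ∧ H.Adj p.1 p.2} ≤ 128 * b ^ 2

/-- PACKET LINK2: prove `GoalLINK → GoalLINK2`.

PROOF. Let `c = ⌈2 exp (4096 A)⌉₊ + 2`, `t = A s`, `x = c t = |P| = |Q|`. If `A = 0` or so then
`t = 0` and `R = L = ∅`; let `t ≥ 1`. Let `d = ⌊1024 x / s⌋`. As `s ≥ 4096`, `2 d ≤ x`; `2 t ≤ x` since `c ≥ 2`.
Let `Q' = {w ∈ Q : |N(w) ∩ P| ≤ d}`. For `w ∈ Q \ Q'` one has `|N(w) ∩ P| ≥ d + 1 ≥ 1024 x / s`, so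
`|Q \ Q'| 1024 x / s ≤ e(P, Q) ≤ 512 x² / s`, `|Q \ Q'| ≤ x / 2`, `|Q'| ≥ x / 2`. `GoalLINK` with `P`, `Q'`, `t`,
`d` gives `R`, `L`, `|L| ≥ (1 - 2 d / x)^t x / 2`, `2 d / x ≤ 2048 / s ≤ 1 / 2`, `1 - y ≥ exp (- 2 y)` for
`0 ≤ y ≤ 1 / 2`, so `|L| ≥ exp (- 4096 t / s) x / 2 = exp (- 4096 A) c t / 2 ≥ t`. Take a subset of `L` with
`t` elements. -/
def GoalLINK2 : Prop :=
  ∀ A : ℕ, ∃ c : ℕ, 2 ≤ c ∧
    ∀ (V : Type) [Fintype V] (H : SimpleGraph V) (s : ℕ) (P Q : Finset V), 4096 ≤ s →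
      P.card = c * (A * s) → Q.card = c * (A * s) →
      s * Nat.card {p : V × V // p.1 ∈ P ∧ p.2 ∈ Q ∧ H.Adj p.1 p.2} ≤ 512 * (c * (A * s)) ^ 2 →
      ∃ R L : Finset V, R ⊆ P ∧ L ⊆ Q ∧ R.card = A * s ∧ L.card = A * s ∧
        ∀ u ∈ R, ∀ w ∈ L, ¬ H.Adj u w

/-- PACKET ORD: prove `GoalLIGHT → GoalLINK2 → GoalORD` (with
`Pool.Agent.Helper38.Sey.goalASM`).

PROOF. `c` from `GoalLINK2`, `t = A s`, `b = 2 c t`. `GoalLIGHT` gives `ρ`; let `C' = ρ ∘ C`,
`X_g = {v : C' v = g}`, `b ≤ |X_g|`. Choose disjoint `P_g, Q_g ⊆ X_g` with `c t` elements each. For each `g`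
apply `GoalLINK2` to `P_g`, `Q_(g+1)` (the number of edges: `s e ≤ 128 b² = 512 (c t)²`); it gives
`R_g ⊆ P_g` and `L_(g+1) ⊆ Q_(g+1)`. Let `τ v = 2` if `v ∈ L_(C' v)`, `τ v = 0` if
`v ∈ R_(C' v)`, `τ v = 1` otherwise. `goalASM` with `J = 3`, `m0 = t`, `C'`, `τ`: if `H.Adj u v`, `C' v = C' u + 1` and
`τ v > τ u + 1` then `τ u = 0`, `τ v = 2`, `u ∈ R_g`, `v ∈ L_(g+1)`, impossible. The blocks `j = 0, 2` have
`t` elements, the block `j = 1` has at least `2 c t - 2 t ≥ t` elements. Result: `(3 - 2) t < distance`. -/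
def GoalORD : Prop :=
  ∀ A : ℕ, 1 ≤ A → ∃ c : ℕ, 2 ≤ c ∧
    ∀ (V : Type) [Fintype V] (H : SimpleGraph V) (s N : ℕ) (C : V → Fin N), 4096 ≤ s → 2 ≤ N →
      (∀ v, s * Nat.card {u // H.Adj v u} ≤ Fintype.card V) →
      (∀ u v, H.Adj u v → C u ≠ C v) →
      (∀ x, 2 * (c * (A * s)) ≤ Nat.card {v // C v = x} ∧
        Nat.card {v // C v = x} ≤ 4 * (2 * (c * (A * s)))) →
      ∃ σ : Fin (Fintype.card V) ≃ V, ∀ i k : Fin (Fintype.card V), H.Adj (σ i) (σ k) →
        A * s < (k.val + Fintype.card V - i.val) % Fintype.card V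

/-- PACKET COVER: prove `GoalPIECES → GoalHOST → GoalORD → GoalCOVER`.

PROOF. WLOG `A ≥ 1` (for `A = 0` use the result for `A = 1`). `c` from `GoalORD`, `b = 2 c A s`, `h = s / 4`, `K` large, e.g.
`K = 4096 + 48 c A (64 c A + 2)`; `n = |V|`. If `V` is empty, any `σ` works; so `m ≥ 1`, `n ≥ K s`. `GoalPIECES` with `B = 4 b`, `h`: the
number of non-big labels is at most `m (4 b / h + 1)`, where `h ≥ s / 8`, so `4 b / h ≤ 32 b / s = 64 c A`, and
`24 b m (64 c A + 1) ≤ K m s ≤ n`. `GoalHOST` gives `N` and `C`; `N 4 b ≥ n ≥ K s` and `8 c A < K`, so `N ≥ 2`. `GoalORD`. -/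
def GoalCOVER : Prop :=
  ∀ A : ℕ, ∃ K : ℕ, ∀ (V : Type) [Fintype V] (H : SimpleGraph V) (s m : ℕ) (f : V → Fin m),
    K ≤ s → (∀ v, s * Nat.card {u // H.Adj v u} ≤ Fintype.card V) →
    (∀ u v, H.Adj u v → f u ≠ f v) → K * m * s ≤ Fintype.card V →
    ∃ σ : Fin (Fintype.card V) ≃ V, ∀ i k : Fin (Fintype.card V), H.Adj (σ i) (σ k) →
      A * s < (k.val + Fintype.card V - i.val) % Fintype.card V

/-! ### Part 2 -/

/-- PACKET RAM (Ramsey).

PROOF. Induction on `k + a` of the stronger statement: if all cliques `T ⊆ F` have at most `k` elements and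
`(k + a).choose a ≤ |F|` then there is an independent `I ⊆ F` with `a + 1` elements. `k = 0`: `F` is empty, contradiction.
`a = 0`: `|F| ≥ 1`, one vertex. Otherwise take `v ∈ F`; since
`(k + a).choose a = (k - 1 + a).choose a + (k + a - 1).choose (a - 1)` either the set of the neighbours
of `v` in `F` has at least `(k - 1 + a).choose a` elements (its cliques have at most `k - 1` elements: add `v`), or the
set of the non-neighbours in `F` different from `v` has at least `(k + a - 1).choose (a - 1)` elements; it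
contains an independent set with `a` elements, add `v`. Finally `(k + a).choose a ≤ (k + 1)^a`, and
take a subset with `a` elements. -/
def GoalRAM : Prop :=
  ∀ (V : Type) (H : SimpleGraph V) (k a : ℕ) (F : Finset V),
    (∀ T : Finset V, T ⊆ F → (∀ u ∈ T, ∀ v ∈ T, u ≠ v → H.Adj u v) → T.card ≤ k) →
    (k + 1) ^ a ≤ F.card →
    ∃ I : Finset V, I ⊆ F ∧ (∀ u ∈ I, ∀ v ∈ I, ¬ H.Adj u v) ∧ I.card = a

/-- PACKET SUP (supersaturation): prove `GoalRAM → GoalSUP`.

PROOF. Let `f = |F|`, `R = (k + 1)^m`. The number of independent subsets is at least `1` (the empty set). If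
`f < R` then `f^m ≤ R^m = (k + 1)^(m m)`. Let `f ≥ R`. Every subset of `F` with `R` elements contains
an independent set with `m` elements (`GoalRAM`), and a given `m`-set is in `(f - m).choose (R - m)` of these
subsets (`m ≤ R` if `k ≥ 1`; if `k = 0` then `f = 0 < R`). Double counting:
`f.choose R ≤ i_m (f - m).choose (R - m)`, `f.choose R * R.choose m = f.choose m * (f - m).choose (R - m)`, so
`f.choose m ≤ i_m R.choose m`. And `f^m R.choose m ≤ R^m f.choose m` for `R ≤ f` (`f (R - i) ≤ R (f - i)`; use `descFactorial`). So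
`f^m ≤ R^m i_m`. -/
def GoalSUP : Prop :=
  ∀ (V : Type) [Fintype V] (H : SimpleGraph V) (k m : ℕ) (F : Finset V),
    (∀ T : Finset V, T ⊆ F → (∀ u ∈ T, ∀ v ∈ T, u ≠ v → H.Adj u v) → T.card ≤ k) →
    F.card ^ m ≤ (k + 1) ^ (m * m) *
      Nat.card {I : Finset V // I ⊆ F ∧ ∀ u ∈ I, ∀ v ∈ I, ¬ H.Adj u v}

/-- proper partial colouring -/
def Ok {V : Type} {q : ℕ} (H : SimpleGraph V) (φ : V → Option (Fin q)) : Prop :=
  ∀ u v c, H.Adj u v → φ u = some c → φ v ≠ some c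

open Classical in
/-- erase the colour `c` in `S` -/
noncomputable def er {V : Type} {q : ℕ} (S : Set V) (c : Fin q) (φ : V → Option (Fin q)) :
    V → Option (Fin q) := fun u => if u ∈ S ∧ φ u = some c then none else φ u

/-- the colour `c` is missing in `S` -/
def Em {V : Type} {q : ℕ} (S : Set V) (c : Fin q) (φ : V → Option (Fin q)) : Prop :=
  ∀ u ∈ S, φ u ≠ some c

open Classical in
/-- the vertices of `S` which may have the colour `c` if the colours different from `c` and the colouring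
outside `S` are fixed -/
noncomputable def Fr {V : Type} [Fintype V] {q : ℕ} (H : SimpleGraph V) (S : Set V) (c : Fin q)
    (φ : V → Option (Fin q)) : Finset V :=
  Finset.univ.filter fun u =>
    u ∈ S ∧ (φ u = none ∨ φ u = some c) ∧ ∀ w, w ∉ S → H.Adj u w → φ w ≠ some c

/-- PACKET FIB (the fibre of erasing a colour).

PROOF. Let `E = er S c φ`. For an independent `I ⊆ Fr` let `φ_I u = some c` if `u ∈ I` and
`φ_I u = E u` otherwise. It is `Ok`: `E` is `Ok` (it only erases), `E u = none` for `u ∈ I` (`u ∈ Fr`); if `u ∈ I` and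
`w` is a neighbour of `u` then `φ_I w ≠ some c`: `w ∉ I`; if `w ∈ S` then `E w ≠ some c`; if
`w ∉ S` then `E w = φ w ≠ some c` since `u ∈ Fr`. And `er S c φ_I = E`. `I ↦ φ_I` is injective
(`u ∈ I ↔ u ∈ S ∧ φ_I u = some c`). This is (1).
(2) `φ' ↦ I(φ') = {u ∈ S : φ' u = some c}` is injective on the fibre (`φ' u = some c` on `I(φ')`, `E u` elsewhere), and
`I(φ') ⊆ Fr H S c φ` (for `u ∈ I(φ')`: `E u = er S c φ' u = none`, so `φ u = none` or `φ u = some c`; a
neighbour `w ∉ S` of `u` has `φ w = E w = φ' w ≠ some c`). The number of subsets of `Fr` with less than `m` elements is at most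
`(|Fr| + 1)^m` (`m = 0`: none; otherwise they are images of maps `Fin m → Option Fr`).
(3) The only element of the fibre with `Em` is `E` itself. (4) as in (2). -/
def GoalFIB : Prop :=
  ∀ (V : Type) [Fintype V] (H : SimpleGraph V) (q : ℕ) (S : Set V) (c : Fin q)
    (φ : V → Option (Fin q)), Ok H φ →
    Nat.card {I : Finset V // I ⊆ Fr H S c φ ∧ ∀ u ∈ I, ∀ v ∈ I, ¬ H.Adj u v} ≤
        Nat.card {φ' // Ok H φ' ∧ er S c φ' = er S c φ} ∧
      (∀ m : ℕ, Nat.card {φ' // (Ok H φ' ∧ er S c φ' = er S c φ) ∧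
          Nat.card {u // u ∈ S ∧ φ' u = some c} < m} ≤ ((Fr H S c φ).card + 1) ^ m) ∧
      Nat.card {φ' // (Ok H φ' ∧ er S c φ' = er S c φ) ∧ Em S c φ'} = 1 ∧
      ∀ φ', Ok H φ' → er S c φ' = er S c φ → Fr H S c φ' = Fr H S c φ

/-- PACKET CHAIN (resampling the colours one after the other). `T`: tight, `E`: empty, `S`: small.

PROOF. For `i ≤ q` define `G_i : Ω → ℝ` by downward recursion: `G_q x = 1` if `x` is bad, i.e. the
number of `c` with `E c x` is `< ℓ`, and `G_q x = 0` otherwise; `G_i x` = the average of `G_(i+1) y` over the `y` with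
`e i y = e i x`. Since the average over fibres preserves the sum over `Ω`, `∑_x G_0 x` = number of bad `x`. (In Lean: e.g.
recursion over `j` with `i = q - j`, or over a list of colours.) Let `X_i x` be the number of `c < i` with `E c x`, `Z_i x` the
number of `c < i` with `¬ S c x`. CLAIM: for all `i ≤ q`, `x`, `w, y : ℕ` with `i ≤ w + y + Z_i x`:
`G_i x ≤ 16^y 2^(q-i) / 4^q + exp ((w - q / 4) / (2 M)) 2^ℓ / 2^(X_i x)`.
`i = q`: let `x` be bad. `Z_q x ≤ q / 4`, so `w + y ≥ 3 q / 4`; if `2 y ≥ q` the first term is `≥ 1`, otherwise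
`w ≥ q / 4` and the second term is `≥ 1` since `X_q x ≤ ℓ`.
Step from `i + 1` to `i`: for `x' ` with `e i x' = e i x` one has `X_i x' = X_i x`, `Z_i x' = Z_i x`, `T i x' ↔ T i x`,
`X_(i+1) x' = X_i x + [E i x']`. If `T i x`: use the claim for `i + 1`, `x'`, `w + 1`, `y`
(`i + 1 ≤ w + 1 + y + Z_(i+1) x'`): the first term is at most the old one (factor `1/2`), the average of the second terms is the old
one times `exp (1 / (2 M)) (1 - p / 2)`, where `p ≥ 1 / M` is the proportion of `E i x'`; and `1 - p / 2 ≤ 1 - 1 / (2 M) ≤ exp (- 1 / (2 M))`.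
If `¬ T i x`: use the claim for `i + 1`, `x'`, `w`, `y + [S i x']` (if `¬ S i x'` then
`Z_(i+1) x' = Z_i x + 1`): the second term does not increase, and the average of the first terms is the old one
times `(1 / 2) (1 + 15 p')`, where `p' ≤ 1 / 16` is the proportion of `S i x'`.
For `i = 0`, `w = y = 0`: `G_0 x ≤ 2^q / 4^q + exp (- q / (8 M)) 2^ℓ`, and
`2^ℓ ≤ exp ℓ ≤ exp (q / (16 M))`. -/
def GoalCHAIN : Prop :=
  ∀ (Ω Y : Type) [Fintype Ω] (q M ℓ : ℕ) (e : Fin q → Ω → Y) (T E S : Fin q → Ω → Prop),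
    1 ≤ M → 16 * M * ℓ ≤ q →
    (∀ c x y, e c x = e c y → T c x → T c y) →
    (∀ c c' x y, c ≠ c' → e c x = e c y → (E c' x → E c' y) ∧ (S c' x → S c' y)) →
    (∀ c x, T c x → Nat.card {y // e c y = e c x} ≤ M * Nat.card {y // e c y = e c x ∧ E c y}) →
    (∀ c x, ¬ T c x →
      16 * Nat.card {y // e c y = e c x ∧ S c y} ≤ Nat.card {y // e c y = e c x}) →
    (∀ x, 4 * Nat.card {c // ¬ S c x} ≤ q) →
    (Nat.card {x // Nat.card {c // E c x} < ℓ} : ℝ) ≤
      ((1 / 2 : ℝ) ^ q + Real.exp (-((q : ℝ) / (16 * M)))) * Fintype.card Ω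

/-- PACKET E1 (many missing colours): prove `GoalSUP → GoalFIB → GoalCHAIN → GoalE1`.

PROOF. Apply `GoalCHAIN` to `Ω = {φ // Ok H φ ∧ ∀ u, u ∉ S → φ u = φ0 u}`, `e c φ = er S c φ`,
`E c φ = Em S c φ`, `S c φ`: the class `{u ∈ S : φ u = some c}` has less than `m0 = 4 K'` elements,
`T c φ`: the number of `φ'` with `Ok H φ'` and `er S c φ' = er S c φ` is at most `M`. If `φ ∈ Ω`, `Ok H φ'`, `er S c φ' = er S c φ`
then `φ' ∈ Ω` (`er` does not change the values outside `S`). For `c' ≠ c` the class of `c'` is the same for `φ` and `φ'` if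
`er S c φ' = er S c φ`. Tight: `GoalFIB` (3). Not tight: let `N` be the size of the fibre, `M < N`, `x = |Fr|`; by
`GoalFIB` (2) the number of small elements is at most `(x + 1)^m0`; `GoalSUP` with `m = 2 m0` and `GoalFIB` (1) give
`x^(2 m0) ≤ (k + 1)^(4 m0²) N`, so `(x + 1)^(2 m0) ≤ 4^m0 (k + 1)^(4 m0²) N` (`x + 1 ≤ 2 x` if `x ≥ 1`; for `x = 0` trivial), and
`(16 (x + 1)^m0)² ≤ 256 4^m0 (k + 1)^(4 m0²) N = M N ≤ N²`. At most `q / 4` classes have `≥ 4 K'` elements since the classes are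
disjoint and `|S| ≤ K' q`. -/
def GoalE1 : Prop :=
  ∀ (V : Type) [Fintype V] (H : SimpleGraph V) (k K' q M ℓ : ℕ) (S : Set V)
    (φ0 : V → Option (Fin q)), 1 ≤ K' →
    (∀ T : Finset V, (∀ u ∈ T, ∀ v ∈ T, u ≠ v → H.Adj u v) → T.card ≤ k) →
    Nat.card {u // u ∈ S} ≤ K' * q →
    M = 256 * 4 ^ (4 * K') * (k + 1) ^ (4 * (4 * K') ^ 2) → 16 * M * ℓ ≤ q →
    (Nat.card {φ : V → Option (Fin q) // (Ok H φ ∧ ∀ u, u ∉ S → φ u = φ0 u) ∧
        Nat.card {c // Em S c φ} < ℓ} : ℝ) ≤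
      ((1 / 2 : ℝ) ^ q + Real.exp (-((q : ℝ) / (16 * M)))) *
        Nat.card {φ : V → Option (Fin q) // Ok H φ ∧ ∀ u, u ∉ S → φ u = φ0 u}

/-- PACKET E2 (a missing colour is not available for many neighbours): prove `GoalSUP → GoalFIB → GoalE2`.

PROOF. Let `Ω = {φ // Ok H φ ∧ ∀ u, u ∉ S → φ u = φ0 u}`, `W` the set of the `φ ∈ Ω` with `Em S c φ` and
`ℓ < 16 |Fr H S c φ|`. For `φ ∈ W`, `x = |Fr|`: `16^m x^m ≥ ℓ^m ≥ I (k + 1)^(m m) 16^m`, so
`x^m ≥ I (k + 1)^(m m)`, and by `GoalSUP` and `GoalFIB` (1) the fibre of `φ` has at least `I` elements. The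
fibres of different `φ ∈ W` are disjoint (`GoalFIB` (3)), and contained in `Ω`. -/
def GoalE2 : Prop :=
  ∀ (V : Type) [Fintype V] (H : SimpleGraph V) (k q ℓ I m : ℕ) (S : Set V)
    (φ0 : V → Option (Fin q)) (c : Fin q),
    (∀ T : Finset V, (∀ u ∈ T, ∀ v ∈ T, u ≠ v → H.Adj u v) → T.card ≤ k) →
    I * (k + 1) ^ (m * m) * 16 ^ m ≤ ℓ ^ m →
    I * Nat.card {φ : V → Option (Fin q) // (Ok H φ ∧ ∀ u, u ∉ S → φ u = φ0 u) ∧
        Em S c φ ∧ ℓ < 16 * (Fr H S c φ).card} ≤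
      Nat.card {φ : V → Option (Fin q) // Ok H φ ∧ ∀ u, u ∉ S → φ u = φ0 u}

/-- PACKET LLLC (the lopsided local lemma for counting).

PROOF. As in `Pool/Agent/Helper51/Girth4/LLL.lean` (`stmtLLL`). For a finset `T` of `J` let
`Q T = #{ω : ∀ i ∈ T, ¬ A i ω}` (real). By induction on `|T|`: `0 < Q T` and for all `j`:
`#{ω : A j ω ∧ ∀ i ∈ T, ¬ A i ω} ≤ 2 p Q T`. First `0 < Q T`: for `T = insert j T'`,
`Q T = Q T' - #{A j, ∀ i ∈ T', ¬ A i} ≥ (1 - 2 p) Q T' > 0`, as `4 p ≤ 4 p d ≤ 1`. For the second, let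
`T1 = T ∩ Γ j`, `T2 = T \ Γ j`. `#{A j, ∀ T} ≤ #{A j, ∀ T2} ≤ p Q T2` by hypothesis. If `T1 = ∅` this is it; otherwise
`|T2| < |T|` and `Q T ≥ Q T2 - ∑_{i ∈ T1} #{A i, ∀ T2} ≥ Q T2 (1 - d 2 p) ≥ Q T2 / 2`. -/
def GoalLLLC : Prop :=
  ∀ (Ω J : Type) [Fintype Ω] [Nonempty Ω] [Fintype J] (A : J → Ω → Prop) (Γ : J → Finset J)
    (p : ℝ) (d : ℕ), 0 ≤ p → 1 ≤ d → 4 * p * d ≤ 1 → (∀ j, (Γ j).card ≤ d) →
    (∀ (j : J) (T : Finset J), Disjoint T (Γ j) →
      (Nat.card {ω // A j ω ∧ ∀ i ∈ T, ¬ A i ω} : ℝ) ≤ p * Nat.card {ω // ∀ i ∈ T, ¬ A i ω}) →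
    ∃ ω, ∀ j, ¬ A j ω

/-- PACKET LIST (list colouring with few conflicts per colour).

PROOF. `ℓ ≥ 2`. For `u ∈ U` choose an injective `en u : Fin ℓ → Col` with values in `L u`. Use
`Pool.Agent.Helper51.Girth4.stmtLLL` with `I = V`, labels `Fin ℓ`, `J = V × V × Fin ℓ × Fin ℓ`. An index (u, w, i, j) is
valid if `u, w ∈ U`, `H.Adj u w` and `en u i = en w j`. For a valid index `S = {u, w}` and the event is
`ω u = i ∧ ω w = j`, probability `1 / ℓ²` (`u ≠ w`). For the others `S = ∅` and the event is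
`False`. A valid index meets at most `4 ℓ (ℓ / 16)` (natural division) indices: `u' ∈ {u, w}` (2), `i'` (ℓ), `w'` (at most `ℓ / 16`
by hypothesis for the colour `en u' i'`), then `j'` is determined; and the same with `w' ∈ {u, w}`. So with
`d = ℓ² / 4 ≥ 1` (natural division) the condition `4 p d ≤ 1` holds for `p = 1 / ℓ²`. The colouring is
`col u = en u (ω u)` for `u ∈ U`. (`Col` may be assumed nonempty: if `U` is empty take anything, `V` nonempty.) -/
def GoalLIST : Prop :=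
  ∀ (V Col : Type) [Fintype V] [Nonempty Col] (H : SimpleGraph V) (U : V → Prop)
    (L : V → Col → Prop) (ℓ : ℕ), 2 ≤ ℓ →
    (∀ u, U u → ∃ en : Fin ℓ → Col, Function.Injective en ∧ ∀ i, L u (en i)) →
    (∀ u c, U u → L u c → 16 * Nat.card {w // H.Adj u w ∧ U w ∧ L w c} ≤ ℓ) →
    ∃ col : V → Col, (∀ u, U u → L u (col u)) ∧
      ∀ u w, U u → U w → H.Adj u w → col u ≠ col w

/-- the bad event of the vertex `v` -/
def Bad {V : Type} {q : ℕ} (H : SimpleGraph V) (ℓ : ℕ) (v : V) (φ : V → Option (Fin q)) : Prop :=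
  Nat.card {c // Em {u | H.Adj v u} c φ} < ℓ ∨
    ∃ c, Em {u | H.Adj v u} c φ ∧
      ℓ < 16 * Nat.card {u // H.Adj v u ∧ φ u = none ∧ Em {w | H.Adj u w} c φ}

/-- PACKET NOBAD: prove `GoalE1 → GoalE2 → GoalLLLC → GoalNOBAD`.

PROOF. `Ω = {φ // Ok H φ}` (contains the empty colouring), `J = V`, `A v φ = Bad H ℓ v φ`, `Γ v` = the ball of radius 3:
the set of the `w` such that there are `x ∈ N(v)` and `y` with (`w = x`, or `w ∈ N(x)`, or `w ∈ N(y)`, `y ∈ N(x)`),
together with `v`. Its size is at most `1 + Δ + Δ² + Δ³ ≤ (Δ + 1)^3 = d`. (To be in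
`Γ v` it is enough that `N(v)` meets `{w} ∪ N(w) ∪ N(N(w))`.) If `w ∉ Γ v` then `Bad H ℓ w φ` depends only on `φ`
outside `S = N(v)` (it depends on `φ` on `N(w) ∪ N(N(w))`). So for `T` disjoint from `Γ v` group the `φ` with `∀ i ∈ T, ¬ Bad i φ` by their
restriction to the complement of `S`: it is enough to show for each `φ0` that
`#{φ Ok, = φ0 outside S, Bad H ℓ v φ} ≤ p #{φ Ok, = φ0 outside S}`, where
`p = (1/2)^q + exp (- q / (16 M)) + q / I`. By `GoalE1` for the first alternative of `Bad`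
(`|S| ≤ Δ ≤ K' q`), and `GoalE2` for the second: if `Em S c φ` then `{u ∈ N(v) : φ u = none, Em (N(u)) c φ} ⊆ Fr H S c φ`; sum over the `q`
colours `c`. `4 p d ≤ 1` is a hypothesis. -/
def GoalNOBAD : Prop :=
  ∀ (V : Type) [Fintype V] (H : SimpleGraph V) (k K' q M ℓ I m Δ : ℕ), 1 ≤ K' →
    (∀ v, Nat.card {u // H.Adj v u} ≤ Δ) →
    (∀ T : Finset V, (∀ u ∈ T, ∀ v ∈ T, u ≠ v → H.Adj u v) → T.card ≤ k) →
    Δ ≤ K' * q → M = 256 * 4 ^ (4 * K') * (k + 1) ^ (4 * (4 * K') ^ 2) → 16 * M * ℓ ≤ q →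
    1 ≤ I → I * (k + 1) ^ (m * m) * 16 ^ m ≤ ℓ ^ m →
    4 * ((1 / 2 : ℝ) ^ q + Real.exp (-((q : ℝ) / (16 * M))) + (q : ℝ) / I) * ((Δ : ℝ) + 1) ^ 3 ≤ 1 →
    ∃ φ : V → Option (Fin q), Ok H φ ∧ ∀ v, ¬ Bad H ℓ v φ

/-- PACKET NUM (the parameters).

PROOF. `M` is as given, `q = Δ / K`, `ℓ = q / (16 M)`, `I = 12 q (Δ + 1)^3`, `m = 16` (natural divisions).
`M ≤ 256 4^(8K) (2 k)^(256 K²) ≤ (C k)^(256 K²)` with `C = C(K)`. Let `K2` be large in terms of `K`. Then `Δ ≥ (K2 k)^K2`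
gives `(64 K M)^4 ≤ Δ`, `(k + 1)^256 ≤ Δ`, `Δ ≥ 10^100`. So `q ≥ Δ / (2 K)`,
`ℓ ≥ q / (32 M) ≥ Δ / (64 K M) ≥ Δ^(3/4)` (use e.g. `ℓ^4 ≥ Δ^3`). `I (k + 1)^256 16^16 ≤ 12 Δ (2 Δ)^3 Δ 2^64 = 96 2^64 Δ^5 ≤ Δ^12 ≤ ℓ^16`.
The three terms: `4 (q / I) (Δ + 1)^3 = 1 / 3`; `q / (16 M) ≥ ℓ ≥ Δ^(3/4)`, `exp x ≥ x^8 / 8!`, so
`exp (q / (16 M)) ≥ ℓ^8 / 40320 ≥ Δ^6 / 40320 ≥ 12 (Δ + 1)^3`; `2^q ≥ 2^ℓ`, `2^ℓ ≥ ℓ^8 / (8! 2^8)` or simply `q ≥ 2 ℓ`, `2^q ≥ exp (q / 2) ≥ exp ℓ`. -/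
def GoalNUM : Prop :=
  ∀ K : ℕ, 1 ≤ K → ∃ K2 : ℕ, 1 ≤ K2 ∧ ∀ k Δ : ℕ, 1 ≤ k → (K2 * k) ^ K2 ≤ Δ →
    ∃ q M ℓ I m : ℕ, K * q ≤ Δ ∧ Δ ≤ (2 * K) * q ∧
      M = 256 * 4 ^ (4 * (2 * K)) * (k + 1) ^ (4 * (4 * (2 * K)) ^ 2) ∧ 16 * M * ℓ ≤ q ∧
      2 ≤ ℓ ∧ 1 ≤ I ∧ I * (k + 1) ^ (m * m) * 16 ^ m ≤ ℓ ^ m ∧
      4 * ((1 / 2 : ℝ) ^ q + Real.exp (-((q : ℝ) / (16 * M))) + (q : ℝ) / I) *
        ((Δ : ℝ) + 1) ^ 3 ≤ 1

/-- PACKET JOH: prove `GoalNOBAD → GoalNUM → GoalLIST → GoalJOH`.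

PROOF. Parameters from `GoalNUM`, `K' = 2 K`, `φ` from `GoalNOBAD`. `U u`: `φ u = none`; `L u c`: `Em {w | H.Adj u w} c φ`. `¬ Bad`
says that `L u` has at least `ℓ` elements, and that for `L u c` at most `ℓ / 16` neighbours `w` of `u` have `U w` and
`L w c`. `GoalLIST` gives `col0` (`Fin q` is nonempty: `q ≥ ℓ ≥ 2`). Let `col u = c` if `φ u = some c`, and `col u = col0 u` if `φ u = none`. Proper: both
coloured by `φ`: `Ok`; one coloured `c` by `φ`, the other one, `u`, not: `L u (col0 u)` so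
`col0 u ≠ c`; both uncoloured: `GoalLIST`. -/
def GoalJOH : Prop :=
  ∀ K : ℕ, 1 ≤ K → ∃ K2 : ℕ, 1 ≤ K2 ∧ ∀ k Δ : ℕ, 1 ≤ k → (K2 * k) ^ K2 ≤ Δ →
    ∀ (V : Type) [Fintype V] (H : SimpleGraph V),
      (∀ v, Nat.card {u // H.Adj v u} ≤ Δ) →
      (∀ T : Finset V, (∀ u ∈ T, ∀ v ∈ T, u ≠ v → H.Adj u v) → T.card ≤ k) →
      ∃ (q : ℕ) (col : V → Fin q), K * q ≤ Δ ∧ ∀ u v, H.Adj u v → col u ≠ col v

/-- PACKET T1 (the first theorem in terms of `G`): prove `GoalCOVER → GoalT1`.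

PROOF. `K` from `GoalCOVER`, `s = r + 1`, `H = Gᶜ`: `deg_H v = n - 1 - deg_G v`, so `s deg_H v ≤ n`. If
`k ≠ i` and the distance is at most `A r ≤ A s`, then `σ i`, `σ k` are not adjacent in `H`, so adjacent in `G`. -/
def GoalT1 : Prop :=
  ∀ A : ℕ, ∃ K : ℕ, ∀ r : ℕ, K ≤ r →
    ∀ (V : Type) [Fintype V] [DecidableEq V] (G : SimpleGraph V) [DecidableRel G.Adj]
      (m : ℕ) (f : V → Fin m), (∀ u v, u ≠ v → f u = f v → G.Adj u v) →
      K * m * (r + 1) ≤ Fintype.card V → r * Fintype.card V ≤ (r + 1) * G.minDegree →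
      ∃ σ : Fin (Fintype.card V) ≃ V, ∀ i k : Fin (Fintype.card V), k ≠ i →
        (k.val + Fintype.card V - i.val) % Fintype.card V ≤ A * r → G.Adj (σ i) (σ k)

/-- PACKET ALPHA (the second theorem): prove `GoalT1 → GoalJOH → GoalALPHA`.

PROOF. `K1` from `GoalT1` (WLOG `K1 ≥ 1`), `K2` from `GoalJOH` for `K1`, `K = max K1 (2 K2 + 2)` or larger. Let
`n = |V|`, `s = r + 1`, `Δ = n / s` (natural division), `H = Gᶜ`. As in T1 `s deg_H v ≤ n`, so all degrees are at most `Δ`. Cliques of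
`H` are independent in `G`, so they have at most `k` elements. `n ≥ (K k)^K r ≥ (K k)^K s / 2`, and
`(K k)^K / 2 ≥ (K2 k)^K2 + 1`, so `Δ ≥ (K2 k)^K2`. `GoalJOH` gives `q`, `col` with `K1 q ≤ Δ`, so `K1 q s ≤ n`. Use `GoalT1`. -/
def GoalALPHA : Prop :=
  ∀ A : ℕ, ∃ K : ℕ, ∀ r k : ℕ, K ≤ r → 1 ≤ k →
    ∀ (V : Type) [Fintype V] [DecidableEq V] (G : SimpleGraph V) [DecidableRel G.Adj],
      (∀ S : Finset V, (∀ u ∈ S, ∀ v ∈ S, ¬ G.Adj u v) → S.card ≤ k) →
      (K * k) ^ K * r ≤ Fintype.card V → r * Fintype.card V ≤ (r + 1) * G.minDegree →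
      ∃ σ : Fin (Fintype.card V) ≃ V, ∀ i k : Fin (Fintype.card V), k ≠ i →
        (k.val + Fintype.card V - i.val) % Fintype.card V ≤ A * r → G.Adj (σ i) (σ k)

end Pool.Agent.Helper63.Sey2
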